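import Pool.Agent.Q269.GJ.StL
import Pool.Agent.Q65.GR.UORT

/-!
# Project GJ (helper269): basic facts for the unitary jobs (helper190)

The proofs adapt those of helper65 for project GR (`Pool/Agent/Q65/GR`).
-/

set_option autoImplicit false
set_option linter.all false

open scoped Classical
open Finset

namespace Pool.Agent.Q190.GJ

open Pool.Agent.Q269.GR (F2 cf ts HU)
open Pool.Agent.Q269.GJ
open Pool.Agent.Q65.GR (sum_char charF add_self_F eq_of_add_F ts_zero ts_add ts_sq ts_cases ts_sum
  exists_ts Q_pow Q_two conj_add conj_zero conj_conj conj_inj conj_ne cf_conj ts_conj exists_ts_conj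
  card_fix exists_nonfix ts_fix sum_ts card_pow pow_card_inj pow_card_le sum_s)

section base

variable {F : Type} [Field F] [Algebra F2 F] [Fintype F] {Q : ℕ} {n : ℕ}

theorem conj_sum (hQ : Fintype.card F = Q ^ 2) {α : Type} (s : Finset α) (f : α → F) :
    (∑ i ∈ s, f i) ^ Q = ∑ i ∈ s, f i ^ Q := by
  induction s using Finset.induction_on with
  | empty => rw [Finset.sum_empty, Finset.sum_empty, conj_zero hQ]
  | insert a s ha ih => rw [Finset.sum_insert ha, Finset.sum_insert ha, conj_add hQ, ih]

theorem odd_cast (hn : Odd n) : (n : F) = 1 := by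
  obtain ⟨k, hk⟩ := hn
  have := charF (F := F)
  rw [hk]
  push_cast
  rw [CharTwo.two_eq_zero, zero_mul, zero_add]

/-- a constant vector with sum zero vanishes -/
theorem eq_zero_of_const (hn : Odd n) {e : Fin n → F} (he : ∑ l, e l = 0) (h : ∀ a b, e a = e b) :
    e = 0 := by
  funext a
  have h1 : ∑ l : Fin n, e l = (n : F) * e a := by
    rw [Finset.sum_congr rfl fun l _ => h l a, Finset.sum_const, Finset.card_univ, Fintype.card_fin,
      nsmul_eq_mul]
  rw [he, odd_cast hn, one_mul] at h1
  exact h1.symm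

/-- the vector `t (e_a + e_b)` -/
noncomputable def pv (a b : Fin n) (t : F) : W0 n F :=
  ⟨fun l => (if l = a then t else 0) + (if l = b then t else 0), by
    show ∑ l, ((if l = a then t else 0) + (if l = b then t else 0)) = 0
    rw [sum_add_distrib, Finset.sum_ite_eq' univ a, Finset.sum_ite_eq' univ b,
      if_pos (mem_univ _), if_pos (mem_univ _)]
    exact add_self_F t⟩

theorem pv_apply (a b : Fin n) (t : F) (l : Fin n) :
    (pv a b t).1 l = (if l = a then t else 0) + (if l = b then t else 0) := rfl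

theorem pv_conj (hQ : Fintype.card F = Q ^ 2) (a b : Fin n) (t : F) (l : Fin n) :
    (pv a b t).1 l ^ Q = (if l = a then t ^ Q else 0) + (if l = b then t ^ Q else 0) := by
  rw [pv_apply, conj_add hQ]
  congr 1
  · split_ifs
    · rfl
    · exact conj_zero hQ
  · split_ifs
    · rfl
    · exact conj_zero hQ

theorem pv_sum (hQ : Fintype.card F = Q ^ 2) (a b : Fin n) (t : F) (e : Fin n → F) :
    ∑ l, (pv a b t).1 l ^ Q * e l = t ^ Q * (e a + e b) := by
  have h : ∀ l, (pv a b t).1 l ^ Q * e l =
      (if l = a then t ^ Q * e l else 0) + (if l = b then t ^ Q * e l else 0) := by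
    intro l
    rw [pv_conj hQ, add_mul, ite_mul, ite_mul, zero_mul]
  rw [Finset.sum_congr rfl fun l _ => h l, sum_add_distrib, Finset.sum_ite_eq' univ a,
    Finset.sum_ite_eq' univ b, if_pos (mem_univ _), if_pos (mem_univ _), mul_add]

theorem pv_sum' (a b : Fin n) (t : F) (e : Fin n → F) :
    ∑ l, (pv a b t).1 l * e l = t * (e a + e b) := by
  have h : ∀ l, (pv a b t).1 l * e l =
      (if l = a then t * e l else 0) + (if l = b then t * e l else 0) := by
    intro l
    rw [pv_apply, add_mul, ite_mul, ite_mul, zero_mul]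
  rw [Finset.sum_congr rfl fun l _ => h l, sum_add_distrib, Finset.sum_ite_eq' univ a,
    Finset.sum_ite_eq' univ b, if_pos (mem_univ _), if_pos (mem_univ _), mul_add]

/-- a vector with sum zero and different from zero has two different entries -/
theorem exists_ne (hn : Odd n) {e : Fin n → F} (he : ∑ l, e l = 0) (h : e ≠ 0) :
    ∃ a b, e a + e b ≠ 0 := by
  by_contra hcon
  push Not at hcon
  exact h (eq_zero_of_const hn he fun a b => eq_of_add_F (hcon a b))

theorem finrank_W0 (hn : Odd n) : Module.finrank F (W0 n F) = n - 1 := by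
  obtain ⟨σ, hσ⟩ : ∃ σ : (Fin n → F) →ₗ[F] F, ∀ v, σ v = ∑ l, v l :=
    ⟨{ toFun := fun v => ∑ l, v l
       map_add' := fun v w => by simp only [Pi.add_apply, sum_add_distrib]
       map_smul' := fun t v => by
         simp only [Pi.smul_apply, smul_eq_mul, RingHom.id_apply, mul_sum] }, fun _ => rfl⟩
  have h1 := σ.finrank_range_add_finrank_ker
  have hker : LinearMap.ker σ = W0 n F := by
    ext v
    rw [LinearMap.mem_ker, hσ]
    rfl
  have hsurj : LinearMap.range σ = ⊤ := by
    rw [LinearMap.range_eq_top]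
    intro t
    obtain ⟨k, hk⟩ := hn
    have h0 : 0 < n := by omega
    refine ⟨Pi.single ⟨0, h0⟩ t, ?_⟩
    rw [hσ, Finset.sum_pi_single', if_pos (mem_univ _)]
  rw [hker, hsurj, finrank_top, Module.finrank_self, Module.finrank_fintype_fun_eq_card,
    Fintype.card_fin] at h1
  omega

theorem card_W0 (hn : Odd n) : Fintype.card (W0 n F) = Fintype.card F ^ (n - 1) := by
  rw [← Nat.card_eq_fintype_card, card_pow (F := F) (M := W0 n F), finrank_W0 hn]

theorem finrank_V (hn : Odd n) : Module.finrank F (V n F) = 2 * (n - 1) := by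
  rw [Module.finrank_prod, finrank_W0 hn]
  ring

theorem card_V (hn : Odd n) : Fintype.card (V n F) = Fintype.card F ^ (2 * (n - 1)) := by
  rw [← Nat.card_eq_fintype_card, card_pow (F := F) (M := V n F), finrank_V hn]

/-! ### the Laplacian -/

theorem lap_conj (hQ : Fintype.card F = Q ^ 2) (x : Fin n → Fin n → F2) (w : Fin n → F) (l : Fin n) :
    lap x w l ^ Q = lap x (fun l => w l ^ Q) l := by
  unfold lap
  rw [conj_sum hQ]
  refine sum_congr rfl fun l' _ => ?_
  rw [mul_pow, cf_conj hQ, conj_add hQ]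

theorem lap_sum {x : Fin n → Fin n → F2} (hx : Sy x) (w : Fin n → F) : ∑ l, lap x w l = 0 := by
  have h1 : ∀ l, lap x w l = ∑ l', cf (x l l') * w l + ∑ l', cf (x l l') * w l' := by
    intro l
    unfold lap
    rw [← sum_add_distrib]
    exact sum_congr rfl fun l' _ => mul_add _ _ _
  have h2 : ∑ l, ∑ l', cf (x l l') * w l' = ∑ l, ∑ l', (cf (x l l') * w l : F) := by
    rw [sum_comm]
    exact sum_congr rfl fun l _ => sum_congr rfl fun l' _ => by rw [hx l' l]
  rw [sum_congr rfl fun l _ => h1 l, sum_add_distrib, h2]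
  exact add_self_F _

theorem lap_add_apply (x : Fin n → Fin n → F2) (v w : Fin n → F) (l : Fin n) :
    lap x (v + w) l = lap x v l + lap x w l := by
  rw [lap_add]
  rfl

theorem lap_smul_apply (x : Fin n → Fin n → F2) (t : F) (w : Fin n → F) (l : Fin n) :
    lap x (t • w) l = t * lap x w l := by
  rw [lap_smul]
  rfl

/-! ### the Hermitian form -/

theorem hf_add_right (z x y : V n F) : hf Q z (x + y) = hf Q z x + hf Q z y := by
  simp only [hf, Prod.fst_add, Prod.snd_add, Submodule.coe_add, Pi.add_apply]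
  rw [← sum_add_distrib]
  exact sum_congr rfl fun l _ => by ring

theorem hf_smul_right (t : F) (z x : V n F) : hf Q z (t • x) = t * hf Q z x := by
  simp only [hf, Prod.smul_fst, Prod.smul_snd, Submodule.coe_smul, Pi.smul_apply, smul_eq_mul]
  rw [mul_sum]
  exact sum_congr rfl fun l _ => by ring

theorem hf_conj (hQ : Fintype.card F = Q ^ 2) (z x : V n F) : hf Q x z = hf Q z x ^ Q := by
  simp only [hf]
  rw [conj_sum hQ]
  refine sum_congr rfl fun l _ => ?_
  rw [conj_add hQ, mul_pow, mul_pow, conj_conj hQ, conj_conj hQ]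
  ring

theorem hf_add_left (hQ : Fintype.card F = Q ^ 2) (x y z : V n F) :
    hf Q (x + y) z = hf Q x z + hf Q y z := by
  rw [hf_conj hQ z, hf_add_right, conj_add hQ, ← hf_conj hQ, ← hf_conj hQ]

theorem hf_smul_left (hQ : Fintype.card F = Q ^ 2) (t : F) (x z : V n F) :
    hf Q (t • x) z = t ^ Q * hf Q x z := by
  rw [hf_conj hQ z, hf_smul_right, mul_pow, ← hf_conj hQ]

/-- The form as a linear form of the second argument. -/
noncomputable def hfL (Q : ℕ) (z : V n F) : V n F →ₗ[F] F where
  toFun x := hf Q z x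
  map_add' x y := hf_add_right z x y
  map_smul' t x := by rw [hf_smul_right]; rfl

theorem hf_zero_right (z : V n F) : hf Q z 0 = 0 := (hfL Q z).map_zero

theorem hf_nondeg (hQ : Fintype.card F = Q ^ 2) (hn : Odd n) {h : V n F} (hh : ∀ z, hf Q z h = 0) :
    h = 0 := by
  have h1 : h.1.1 = 0 := by
    refine eq_zero_of_const hn (W0_sum h.1) fun a b => eq_of_add_F ?_
    have h2 := hh (0, pv a b 1)
    simp only [hf, ZeroMemClass.coe_zero, Pi.zero_apply, conj_zero hQ, mul_zero, add_zero] at h2
    rwa [pv_sum hQ, one_pow, one_mul] at h2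
  have h2 : h.2.1 = 0 := by
    refine eq_zero_of_const hn (W0_sum h.2) fun a b => eq_of_add_F ?_
    have h2 := hh (pv a b 1, 0)
    simp only [hf, ZeroMemClass.coe_zero, Pi.zero_apply, conj_zero hQ, zero_mul, zero_add] at h2
    rw [sum_congr rfl fun l _ => mul_comm _ _, pv_sum hQ, one_pow, one_mul] at h2
    exact h2
  exact Prod.ext (Subtype.ext h1) (Subtype.ext h2)

/-- the sum over a submodule of a nontrivial character -/
theorem sum_sub (U : Submodule F (V n F)) (χ : V n F → ℝ)
    (h : ∀ x ∈ U, ∀ y ∈ U, χ (x + y) = χ x * χ y) {x0 : V n F} (hx : x0 ∈ U) (h0 : χ x0 ≠ 1) :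
    ∑ z ∈ (univ : Finset (V n F)).filter (· ∈ U), χ z = 0 := by
  have h1 : ∑ z ∈ (univ : Finset (V n F)).filter (· ∈ U), χ z = ∑ z : U, χ z :=
    (Finset.sum_subtype _ (fun x => by rw [Finset.mem_filter]; exact and_iff_right (Finset.mem_univ _))
      χ)
  rw [h1]
  exact sum_char (fun z : U => χ z) (fun x y => h x x.2 y y.2) ⟨x0, hx⟩ h0

theorem card_filter_sub (U : Submodule F (V n F)) :
    ((univ : Finset (V n F)).filter (· ∈ U)).card = Nat.card U := by
  rw [← Fintype.card_subtype, ← Nat.card_eq_fintype_card]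

theorem card_lt_sub {R U : Submodule F (V n F)} (h : R < U) {m : ℕ}
    (hU : Nat.card U = Fintype.card F ^ (m + 1)) : Nat.card R ≤ Fintype.card F ^ m := by
  have h1 := Submodule.finrank_lt_finrank_of_lt h
  have h2 : Fintype.card F ^ Module.finrank F U = Fintype.card F ^ (m + 1) := by
    rw [← card_pow (F := F) (M := U), hU]
  have h3 := pow_card_inj h2
  rw [card_pow (F := F) (M := R)]
  exact Nat.pow_le_pow_right Fintype.card_pos (by omega)

end base

end Pool.Agent.Q190.GJ
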