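import Pool.Agent.Q269.GJ.StC
import Pool.Agent.Q210.GR.Gen

/-!
# Project GJ (helper269): job GEN (helper190)
-/

set_option autoImplicit false
set_option linter.all false

open scoped Classical
open Finset Polynomial

namespace Pool.Agent.Q190.GJ

open Pool.Agent.Q269.GR (F2 Irn)
open Pool.Agent.Q269.GJ
open Pool.Agent.H341R2.Sharp (lam)
open Pool.Agent.Q210.GR (prime_sum two_vals irn_ge)
open Pool.Agent.Y164.PS (L sg lam_mem sg_L sg_add lam_mul_left lam_eq_zero_iff coprime_of_not_dvd sg_zero sg_one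
  L_prod_left)
open Pool.Agent.Y164.HG (Geo Del)

section gen

variable {k : Type} [Field k] [Fintype k] {n : ℕ}

/-- the product of the differences which occur in `φ` -/
noncomputable def Mf (a : Fin n → k[X]) (φ : Fin n → Fin n → F2) : k[X] :=
  ∏ x ∈ (univ : Finset (Fin n × Fin n)).filter (fun x => x.1 < x.2 ∧ φ x.1 x.2 ≠ 0), (a x.1 - a x.2)

theorem Mf_dvd (a : Fin n → k[X]) (φ : Fin n → Fin n → F2) : Mf a φ ∣ Del a := by
  unfold Mf Del
  refine prod_dvd_prod_of_subset _ _ _ ?_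
  intro x hx
  rw [mem_filter] at hx ⊢
  exact ⟨mem_univ _, hx.2.1⟩

theorem Mf_nonsq {a : Fin n → k[X]} {N : ℕ} (H : Geo a N) {φ : Fin n → Fin n → F2}
    (hφ : ∃ l l', l < l' ∧ φ l l' ≠ 0) (c : k) (h : k[X]) : Mf a φ ≠ C c * h ^ 2 := by
  intro he
  obtain ⟨l, l', hl, hne⟩ := hφ
  have h0 : Mf a φ ≠ 0 := fun h0 => H.del_ne (zero_dvd_iff.1 (h0 ▸ Mf_dvd a φ))
  have h1 : Squarefree (Mf a φ) := H.hsq.squarefree_of_dvd (Mf_dvd a φ)
  have h2 : IsUnit h := h1 h ⟨C c, by rw [he]; ring⟩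
  have h3 : (Mf a φ).natDegree = 0 := by
    rw [he]
    obtain ⟨e, he', rfl⟩ := Polynomial.isUnit_iff.1 h2
    rw [← C_pow, ← C_mul, natDegree_C]
  have h4 : a l - a l' ∣ Mf a φ :=
    dvd_prod_of_mem (fun x : Fin n × Fin n => a x.1 - a x.2) (a := (l, l'))
      (mem_filter.2 ⟨mem_univ _, hl, hne⟩)
  have h5 := natDegree_le_of_dvd h4 h0
  rw [H.hdeg l l' (ne_of_lt hl), h3] at h5
  have := H.hN
  omega

theorem pai_L {a : Fin n → k[X]} {N : ℕ} (H : Geo a N) (φ : Fin n → Fin n → F2) {P : k[X]}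
    (hP : Irreducible P) (hd : ¬ P ∣ Del a) : pai φ (xb a P) = L (Mf a φ) P := by
  have hcop : ∀ x ∈ (univ : Finset (Fin n × Fin n)).filter (fun x => x.1 < x.2 ∧ φ x.1 x.2 ≠ 0),
      IsCoprime (a x.1 - a x.2) P := by
    intro x hx
    rw [mem_filter] at hx
    exact coprime_of_not_dvd hP fun h => hd (h.trans (H.dvd_del (ne_of_lt hx.2.1)))
  have hne : ∀ x ∈ (univ : Finset (Fin n × Fin n)).filter (fun x => x.1 < x.2 ∧ φ x.1 x.2 ≠ 0),
      (a x.1 - a x.2) ≠ 0 := by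
    intro x hx
    rw [mem_filter] at hx
    exact H.ne (ne_of_lt hx.2.1)
  unfold Mf
  rw [L_prod_left hP.ne_zero hne hcop, sum_filter, ← univ_product_univ, sum_product]
  unfold pai xb
  refine sum_congr rfl fun l _ => sum_congr rfl fun l' _ => ?_
  by_cases h1 : l < l'
  · rw [if_pos h1]
    rcases two_vals (φ l l') with h2 | h2
    · rw [h2, zero_mul, if_neg]
      rintro ⟨-, h3⟩
      exact h3 rfl
    · rw [h2, one_mul, if_pos]
      exact ⟨h1, by decide⟩
  · rw [if_neg h1, if_neg]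
    rintro ⟨h3, -⟩
    exact h1 h3

end gen

/-- **GJ-GEN.** -/
theorem t_GEN : S_GEN := by
  intro k _ _ n a N H
  set q := Fintype.card k with hq
  set s := Real.sqrt (q : ℝ) with hs
  have hq1 : 1 < q := Fintype.one_lt_card
  have hq0 : (0 : ℝ) ≤ q := by positivity
  have hs1 : 1 < s := by
    rw [hs]
    exact Real.lt_sqrt_of_sq_lt (by rw [one_pow]; exact_mod_cast hq1)
  set D : ℕ := (Del a).natDegree with hD
  obtain ⟨n₀, hn⟩ := pow_unbounded_of_one_lt (3 * (5 * (D : ℝ) + 2) + 2) hs1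
  refine ⟨n₀ + D + 1, fun d hd φ hφ => ?_⟩
  have hd0 : 0 < d := by omega
  set M := Mf a φ with hM
  set K : ℝ := ((Irn k d).card : ℝ) with hK
  have hnd : ∀ P ∈ Irn k d, ¬ P ∣ Del a := by
    intro P hP h
    obtain ⟨m1, m2, m3⟩ := Pool.Agent.Q210.GR.mem_Irn.1 hP
    have := natDegree_le_of_dvd h H.del_ne
    omega
  have e1 : ∀ P ∈ Irn k d, (if pai φ (xb a P) ≠ 0 then (1 : ℝ) else 0) = (1 - (lam M P : ℝ)) / 2 := by
    intro P hP
    obtain ⟨m1, m2, m3⟩ := Pool.Agent.Q210.GR.mem_Irn.1 hP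
    have hc : IsCoprime M P := coprime_of_not_dvd m3 fun h => hnd P hP (h.trans (Mf_dvd a φ))
    rw [← sg_L m3.ne_zero hc, pai_L H φ m3 (hnd P hP), ← hM]
    rcases two_vals (L M P) with h | h
    · rw [h, sg_zero, if_neg (fun h' => h' rfl)]
      norm_num
    · rw [h, sg_one, if_pos (by decide)]
      norm_num
  have hcount : (((Irn k d).filter fun P => pai φ (xb a P) ≠ 0).card : ℝ) =
      (K - ∑ P ∈ Irn k d, (lam M P : ℝ)) / 2 := by
    rw [card_filter]
    push_cast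
    rw [sum_congr rfl e1, ← sum_div, sum_sub_distrib, sum_const, nsmul_eq_mul, mul_one]
  rw [hcount]
  set B := (5 * (D : ℝ) + 2) * s ^ d / d with hB
  have hdR : (0 : ℝ) < d := by exact_mod_cast hd0
  have hb : |∑ P ∈ Irn k d, (lam M P : ℝ)| ≤ B := by
    have h5 := prime_sum H.hk (Mf_nonsq H hφ) hd0
    rw [hB, le_div_iff₀ hdR, mul_comm]
    refine h5.trans ?_
    have hMD : (Mf a φ).natDegree ≤ D := natDegree_le_of_dvd (Mf_dvd a φ) H.del_ne
    have : ((Mf a φ).natDegree : ℝ) ≤ D := by exact_mod_cast hMD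
    refine mul_le_mul_of_nonneg_right (by linarith) (by positivity)
  have hNB : 3 * B ≤ K := by
    have h6 : (q : ℝ) ^ d ≤ d * K + 2 * (q : ℝ) ^ (d / 2) := by
      rw [hK]
      exact_mod_cast irn_ge (k := k) hd0
    have hsq : s ^ 2 = q := Real.sq_sqrt hq0
    have h7 : (q : ℝ) ^ (d / 2) ≤ s ^ d := by
      rw [← hsq, ← pow_mul]
      exact pow_le_pow_right₀ hs1.le (Nat.mul_div_le d 2)
    have h8 : (q : ℝ) ^ d = s ^ d * s ^ d := by
      rw [← hsq, ← pow_mul, ← pow_add]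
      congr 1
      ring
    have h9 : 3 * (5 * (D : ℝ) + 2) + 2 ≤ s ^ d :=
      hn.le.trans (pow_le_pow_right₀ hs1.le (by omega))
    have h10 : 0 < s ^ d := by positivity
    have h11 : (3 * (5 * (D : ℝ) + 2) + 2) * s ^ d ≤ s ^ d * s ^ d :=
      mul_le_mul_of_nonneg_right h9 h10.le
    have h12 : 3 * B = (3 * (5 * (D : ℝ) + 2)) * s ^ d / d := by rw [hB]; ring
    rw [h12, div_le_iff₀ hdR]
    nlinarith
  have h1 := (abs_le.1 hb).2
  linarith

end Pool.Agent.Q190.GJ
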