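import Pool.Agent.Q269.GJ.StC
import Pool.Agent.Q210.GR.Rea

/-!
# Project GJ (helper269): job REA (helper190)

Adapted from `Pool/Agent/Q210/GR/Rea.lean`.
-/

set_option autoImplicit false
set_option linter.all false

open scoped Classical
open Finset Polynomial

namespace Pool.Agent.Q190.GJ

open Pool.Agent.Q269.GR (F2 cf ev Un Eb dl IsRt gg Bt AA MM ts HU HG Herm hv own Irn Dn pr Fr xi Pfam dg
  Ce IsCe sT erT FxR owR A0R tn XA XB sy)
open Pool.Agent.Q269.GJ
open Pool.Agent.Q210.GR (own_pow fin_range)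
open Pool.Agent.Y164.PS (L sg L_comm L_neg_left)

section re

variable {F : Type} [Field F] [Algebra F2 F] {n : ℕ}

theorem eqn_re {J J' : Type} [Fintype J] [Fintype J'] (e : J ≃ J') {M : J → J → F} {M' : J' → J' → F}
    {dd : J → F} {dd' : J' → F} {x : J → Fin n → Fin n → F2} {x' : J' → Fin n → Fin n → F2}
    (hM : ∀ i j, i ≠ j → M' (e i) (e j) = M i j)
    (hd : ∀ i, dd' (e i) = dd i) (hx : ∀ i, x' (e i) = x i)
    (w : J' → W0 n F) (i : J) : eqn M dd x (w ∘ e) i = eqn M' dd' x' w (e i) := by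
  unfold eqn
  rw [hd, hx]
  congr 2
  rw [← Equiv.sum_comp e]
  refine sum_congr rfl fun j _ => ?_
  by_cases h : j = i
  · subst h
    simp
  · rw [if_neg h, if_neg (fun h' => h (e.injective h')), hM i j (Ne.symm h)]
    rfl

theorem Kn_re {J J' : Type} [Fintype J] [Fintype J'] (e : J ≃ J') {M : J → J → F} {M' : J' → J' → F}
    {dd : J → F} {dd' : J' → F} {x : J → Fin n → Fin n → F2} {x' : J' → Fin n → Fin n → F2}
    (hM : ∀ i j, i ≠ j → M' (e i) (e j) = M i j)
    (hd : ∀ i, dd' (e i) = dd i) (hx : ∀ i, x' (e i) = x i) :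
    (Kn M dd x = ⊥ ↔ Kn M' dd' x' = ⊥) := by
  set E : (J → W0 n F) ≃ (J' → W0 n F) := Equiv.arrowCongr e (Equiv.refl _) with hE
  have hmem : ∀ w : J → W0 n F, w ∈ Kn M dd x ↔ E w ∈ Kn M' dd' x' := by
    intro w
    rw [mem_Kn, mem_Kn]
    have h1 : w = (E w) ∘ e := by
      funext i
      simp [hE, Equiv.arrowCongr]
    constructor
    · intro h i'
      obtain ⟨i, rfl⟩ := e.surjective i'
      rw [← eqn_re e hM hd hx, ← h1]
      exact h i
    · intro h i
      rw [h1, eqn_re e hM hd hx]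
      exact h _
  have hz : ∀ w : J → W0 n F, w = 0 ↔ E w = 0 := by
    intro w
    constructor
    · rintro rfl
      rfl
    · intro h
      funext i
      have := congrFun h (e i)
      simpa [hE, Equiv.arrowCongr] using this
  rw [Submodule.eq_bot_iff, Submodule.eq_bot_iff]
  constructor
  · intro h w' hw'
    obtain ⟨w, rfl⟩ := E.surjective w'
    exact (hz w).1 (h w ((hmem w).2 hw'))
  · intro h w hw
    exact (hz w).2 (h _ ((hmem w).1 hw))

end re

/-- **GJ-REA.** -/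
theorem t_REA (h1 : Pool.Agent.Q269.GR.S_SYP) (h2 : Pool.Agent.Q269.GR.S_UNR)
    (h3 : Pool.Agent.Q269.GR.S_PRD) : S_REA := by
  intro k _ _ hk hm Δ hΔ n a N m P0 mv hN hce T hT
  obtain ⟨p1, p2, p3, p4, p5, p6⟩ := h3 k Δ hΔ
  obtain ⟨hfam, hdeg, hfix⟩ := p6 m P0 mv hce T hT
  have hne : ∀ i j, i ≠ j → T i ≠ T j := fun i j h h' => h (hfam.inj h')
  have hgp : ∀ i j : Fin m, 0 < gg N (dg P0) i j := fun i j => Nat.gcd_pos_of_pos_left _ hN
  have hgi : ∀ i j : Fin m, gg N (dg P0) i j ∣ (T i).natDegree := fun i j => by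
    rw [hdeg]
    exact (Nat.gcd_dvd_right _ _).trans (Nat.gcd_dvd_left _ _)
  have hgj : ∀ i j : Fin m, gg N (dg P0) i j ∣ (T j).natDegree := fun i j => by
    rw [hdeg]
    exact (Nat.gcd_dvd_right _ _).trans (Nat.gcd_dvd_right _ _)
  have hsum : ∀ i j, i ≠ j → ∑ c, sT N P0 T i j c = L (T i) (T j) := by
    intro i j hij
    have e := (h1 k hk hm (T i) (T j) (gg N (dg P0) i j) (hfam.mon i) (hfam.irr i) (hfam.mon j) (hfam.irr j)
      (hgp i j) (hgi i j) (hgj i j)).1 (hne i j hij)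
    rw [← e]
    exact fin_range _ fun c => sy (gg N (dg P0) i j) (T i) (T j) c
  have hA : ∀ i j, i ≠ j → AA N (dg P0) mv (A0R T) (sT N P0 T) i j = L (T j) (T i) := by
    intro i j hij
    unfold AA
    split_ifs with c1 c2
    · exact hsum j i hij.symm
    · rw [hsum i j hij, L_comm hm]
    · rfl
  refine ⟨hA, ?_, ?_⟩
  · intro i l l'
    show L (a l - a l') (T i) = L (a l' - a l) (T i)
    rw [← neg_sub (a l') (a l)]
    exact L_neg_left hk hm (hfam.mon i) (hfam.irr i)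
  intro r F _ _ _ ξ hξ hrN
  have hr0 : 0 < r := by have := hξ.lt; omega
  have hξr : ξ ^ r = 1 := by rw [← hξ.ord]; exact pow_orderOf_eq_one ξ
  have hξ0 : ξ ≠ 0 := by
    intro h
    rw [h, zero_pow hr0.ne'] at hξr
    exact zero_ne_one hξr
  have hξr' : ξ⁻¹ ^ r = 1 := by rw [inv_pow, hξr, inv_one]
  obtain ⟨u1, u2, u3, u4, u5, u6, u7⟩ := h2 r F ξ hξ
  -- SYP (5) and (6)
  have hev : ∀ i j, i ≠ j → ∀ g, 0 < g → g ∣ (T i).natDegree → g ∣ (T j).natDegree → r ∣ g → ∀ ζ : F,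
      ζ ^ r = 1 → hv r ζ (T i) (T j) = ev ζ (fun c : Fin g => sy g (T i) (T j) c) := by
    intro i j hij g hg hgi hgj hrg ζ hζ
    exact (h1 k hk hm (T i) (T j) g (hfam.mon i) (hfam.irr i) (hfam.mon j) (hfam.irr j)
      hg hgi hgj).2.2.2.2.1 (hne i j hij) F ζ r hr0 hrg hζ
  have hinv : ∀ i j, i ≠ j → r ∣ (T i).natDegree → r ∣ (T j).natDegree →
      hv r ξ (T j) (T i) = hv r ξ⁻¹ (T i) (T j) := by
    intro i j hij hi hj
    exact (h1 k hk hm (T i) (T j) r (hfam.mon i) (hfam.irr i) (hfam.mon j) (hfam.irr j)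
      hr0 hi hj).2.2.2.2.2 (hne i j hij) F ξ hξr
  refine ⟨?_, ?_⟩
  · -- Hermitian
    intro hU
    obtain ⟨w1, w2, w3, w4⟩ := u7 hU
    refine ⟨fun i j hi hj _ => ?_, fun i hi => ?_⟩
    · unfold FxR
      by_cases hij : i = j
      · rw [if_pos hij, if_pos hij.symm, zero_pow (by positivity)]
      · rw [if_neg hij, if_neg (Ne.symm hij)]
        have hi' : r ∣ (T i).natDegree := by rw [hdeg]; exact hi
        have hj' : r ∣ (T j).natDegree := by rw [hdeg]; exact hj
        rw [hinv j i (Ne.symm hij) hj' hi', hev j i (Ne.symm hij) r hr0 hj' hi' dvd_rfl ξ⁻¹ hξr',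
          hev j i (Ne.symm hij) r hr0 hj' hi' dvd_rfl ξ hξr]
        exact (w4 r _).1
    · have hi' : r ∣ (T i).natDegree := by rw [hdeg]; exact hi
      exact own_pow hr0 hξr w2 fun c hc hc0 =>
        (h1 k hk hm (T i) (T i) r (hfam.mon i) (hfam.irr i) (hfam.mon i) (hfam.irr i) hr0 hi' hi').2.2.2.1
          c hc hc0
  · obtain ⟨q1, q2⟩ := p1 (Fin m) T hfam
    set D := ∏ i, T i with hD
    have hmem : ∀ i, T i ∈ pr D := fun i => by rw [q1]; exact mem_image_of_mem _ (mem_univ _)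
    let e0 : Fin m ≃ {P : k[X] // P ∈ pr D} := Equiv.ofBijective (fun i => ⟨T i, hmem i⟩) (by
      constructor
      · intro i j h
        exact hfam.inj (congrArg Subtype.val h)
      · rintro ⟨P, hP⟩
        have hP' := hP
        rw [q1, mem_image] at hP'
        obtain ⟨i, _, hi⟩ := hP'
        exact ⟨i, Subtype.ext hi⟩)
    have he0 : ∀ i, ((e0 i : {P : k[X] // P ∈ pr D}) : k[X]) = T i := fun i => rfl
    let e : {i : Fin m // r ∣ dg P0 i} ≃ {i : {P : k[X] // P ∈ pr D} // r ∣ (i.1).natDegree} :=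
      e0.subtypeEquiv fun i => by rw [he0, hdeg]
    have he : ∀ i : {i : Fin m // r ∣ dg P0 i}, ((e i).1 : {P : k[X] // P ∈ pr D}) = e0 i.1 := fun i => rfl
    have key := Kn_re (F := F) (n := n) e
      (M := fun i j => MM N (dg P0) mv (FxR r ξ T) ξ (sT N P0 T) i.1 j.1)
      (M' := fun i j => hv r ξ (j.1 : k[X]) (i.1 : k[X]))
      (dd := fun i => owR r ξ T i.1 + cf (∑ j, if j = i.1 then 0 else
        AA N (dg P0) mv (A0R T) (sT N P0 T) i.1 j))
      (dd' := fun i => own r ξ (i.1 : k[X]) + cf (∑ j : {P : k[X] // P ∈ pr D},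
        if j = i.1 then 0 else L (j : k[X]) (i.1 : k[X])))
      (x := fun i => xR a T i.1) (x' := fun i => xb a (i.1 : k[X]))
      ?_ ?_ ?_
    · unfold KM KD KF
      convert key using 14
    · -- the matrix
      intro i j hij
      have hij' : i.1 ≠ j.1 := fun h => hij (Subtype.ext h)
      have hi' : r ∣ (T i.1).natDegree := by rw [hdeg]; exact i.2
      have hj' : r ∣ (T j.1).natDegree := by rw [hdeg]; exact j.2
      show hv r ξ ((e j).1 : k[X]) ((e i).1 : k[X]) = MM N (dg P0) mv (FxR r ξ T) ξ (sT N P0 T) i.1 j.1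
      rw [he, he, he0, he0]
      unfold MM
      have hrg : ∀ x y : {i : Fin m // r ∣ dg P0 i}, r ∣ gg N (dg P0) x.1 y.1 := fun x y =>
        Nat.dvd_gcd hrN (Nat.dvd_gcd x.2 y.2)
      split_ifs with c1 c2
      · exact hev j.1 i.1 hij'.symm _ (hgp _ _) (hgi _ _) (hgj _ _) (hrg j i) ξ hξr
      · rw [hinv i.1 j.1 hij' hi' hj']
        exact hev i.1 j.1 hij' _ (hgp _ _) (hgi _ _) (hgj _ _) (hrg i j) ξ⁻¹ hξr'
      · unfold FxR
        rw [if_neg hij']
    · -- the diagonal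
      intro i
      show own r ξ ((e i).1 : k[X]) + cf (∑ j : {P : k[X] // P ∈ pr D},
        if j = (e i).1 then 0 else L (j : k[X]) ((e i).1 : k[X])) = _
      rw [he, he0]
      congr 2
      rw [← Equiv.sum_comp e0]
      refine sum_congr rfl fun j _ => ?_
      by_cases hji : j = i.1
      · rw [if_pos hji, if_pos (by rw [hji])]
      · rw [if_neg hji, if_neg (fun h => hji (e0.injective h)), he0, hA i.1 j (Ne.symm hji)]
    · intro i
      rfl

end Pool.Agent.Q190.GJ
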