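import Pool.Agent.Q190.GJ.Base

/-!
# Project GJ (helper269): job UGAU (helper190)
-/

set_option autoImplicit false
set_option linter.all false

open scoped Classical
open Finset

namespace Pool.Agent.Q190.GJ

open Pool.Agent.Q269.GR (F2 cf ts HU)
open Pool.Agent.Q269.GJ
open Pool.Agent.Q65.GR (sum_char charF add_self_F eq_of_add_F ts_zero ts_add ts_sq ts_cases ts_sum
  exists_ts Q_pow Q_two conj_add conj_zero conj_conj conj_inj conj_ne cf_conj ts_conj exists_ts_conj
  card_fix exists_nonfix ts_fix sum_ts card_pow pow_card_inj pow_card_le sum_s)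

section ugau

variable {F : Type} [Field F] [Algebra F2 F] [Fintype F] {Q : ℕ} {n : ℕ}

/-- the part of the weight with the Laplacian -/
noncomputable def ef (Q : ℕ) (x : Fin n → Fin n → F2) (z : V n F) : F :=
  ∑ l, z.2.1 l ^ Q * lap x z.1.1 l

theorem gx_ef (hQ : Fintype.card F = Q ^ 2) (x : Fin n → Fin n → F2) (z : V n F) :
    gx Q x z = ef Q x z + ef Q x z ^ Q := by
  unfold gx ef
  rw [conj_sum hQ, sum_add_distrib]
  congr 1
  refine sum_congr rfl fun l _ => ?_
  rw [mul_pow, conj_conj hQ]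

theorem ts_qf (hQ : Fintype.card F = Q ^ 2) {d : F} (hd : d ^ Q = d) (x : Fin n → Fin n → F2)
    {z : V n F} (hz : hf Q z z = 0) : ts (qf Q d x z) = ts (ef Q x z) := by
  have e : qf Q d x z = d * (∑ l, z.2.1 l ^ Q * z.1.1 l) + ef Q x z := by
    simp only [qf, ef]
    rw [mul_sum, ← sum_add_distrib]
    exact sum_congr rfl fun l _ => by ring
  rw [e, ts_add]
  have h1 : (∑ l, z.2.1 l ^ Q * z.1.1 l) ^ Q = ∑ l, z.2.1 l ^ Q * z.1.1 l := by
    apply eq_of_add_F
    have h2 : hf Q z z = ∑ l, z.2.1 l ^ Q * z.1.1 l + (∑ l, z.2.1 l ^ Q * z.1.1 l) ^ Q := by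
      unfold hf
      rw [conj_sum hQ, sum_add_distrib]
      congr 1
      exact sum_congr rfl fun l _ => by rw [mul_pow, conj_conj hQ]
    rw [add_comm, ← h2, hz]
  rw [ts_fix hQ (e := d * (∑ l, z.2.1 l ^ Q * z.1.1 l)) (by rw [mul_pow, h1, hd]), one_mul]

/-- the polar form of the weight -/
noncomputable def Gf (Q : ℕ) (x : Fin n → Fin n → F2) (z h : V n F) : F :=
  ∑ l, (z.2.1 l ^ Q * lap x h.1.1 l + h.2.1 l * lap x z.1.1 l ^ Q)

theorem ts_ef_add (hQ : Fintype.card F = Q ^ 2) (x : Fin n → Fin n → F2) (z h : V n F) :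
    ts (ef Q x (z + h)) = ts (ef Q x z) * ts (ef Q x h) * ts (Gf Q x z h) := by
  have e1 : ef Q x (z + h) = ef Q x z + ef Q x h +
      (∑ l, z.2.1 l ^ Q * lap x h.1.1 l + ∑ l, h.2.1 l ^ Q * lap x z.1.1 l) := by
    simp only [ef, Prod.fst_add, Prod.snd_add, Submodule.coe_add, Pi.add_apply, conj_add hQ,
      lap_add_apply]
    rw [← sum_add_distrib, ← sum_add_distrib, ← sum_add_distrib]
    exact sum_congr rfl fun l _ => by ring
  have e2 : Gf Q x z h = ∑ l, z.2.1 l ^ Q * lap x h.1.1 l + ∑ l, h.2.1 l * lap x z.1.1 l ^ Q := by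
    simp only [Gf]
    rw [sum_add_distrib]
  have e3 : ts (∑ l, h.2.1 l ^ Q * lap x z.1.1 l) = ts (∑ l, h.2.1 l * lap x z.1.1 l ^ Q) := by
    rw [← ts_conj hQ (∑ l, h.2.1 l ^ Q * lap x z.1.1 l), conj_sum hQ]
    congr 1
    refine sum_congr rfl fun l _ => ?_
    rw [mul_pow, conj_conj hQ]
  rw [e1, e2]
  simp only [ts_add, e3]

theorem Gf_add_left (hQ : Fintype.card F = Q ^ 2) (x : Fin n → Fin n → F2) (z z' h : V n F) :
    Gf Q x (z + z') h = Gf Q x z h + Gf Q x z' h := by
  simp only [Gf, Prod.fst_add, Prod.snd_add, Submodule.coe_add, Pi.add_apply, conj_add hQ,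
    lap_add_apply]
  rw [← sum_add_distrib]
  exact sum_congr rfl fun l _ => by ring

theorem Gf_smul_left (x : Fin n → Fin n → F2) (t : F) (z h : V n F) :
    Gf Q x (t • z) h = t ^ Q * Gf Q x z h := by
  simp only [Gf, Prod.smul_fst, Prod.smul_snd, Submodule.coe_smul, Pi.smul_apply, smul_eq_mul, mul_pow,
    lap_smul_apply]
  rw [mul_sum]
  exact sum_congr rfl fun l _ => by ring

theorem Gf_add_right (x : Fin n → Fin n → F2) (z h h' : V n F) :
    Gf Q x z (h + h') = Gf Q x z h + Gf Q x z h' := by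
  simp only [Gf, Prod.fst_add, Prod.snd_add, Submodule.coe_add, Pi.add_apply, lap_add_apply]
  rw [← sum_add_distrib]
  exact sum_congr rfl fun l _ => by ring

theorem Gf_smul_right (x : Fin n → Fin n → F2) (t : F) (z h : V n F) :
    Gf Q x z (t • h) = t * Gf Q x z h := by
  simp only [Gf, Prod.smul_fst, Prod.smul_snd, Submodule.coe_smul, Pi.smul_apply, smul_eq_mul,
    lap_smul_apply]
  rw [mul_sum]
  exact sum_congr rfl fun l _ => by ring

theorem Gf_self (x : Fin n → Fin n → F2) (z : V n F) : Gf Q x z z = gx Q x z := rfl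

/-- the radical -/
noncomputable def Rf (Q : ℕ) (x : Fin n → Fin n → F2) (U : Submodule F (V n F)) :
    Submodule F (V n F) where
  carrier := {h | h ∈ U ∧ ∀ z ∈ U, Gf Q x z h = 0}
  zero_mem' := by
    refine ⟨U.zero_mem, fun z _ => ?_⟩
    have h := Gf_smul_right (Q := Q) x 0 z 0
    rwa [zero_smul, zero_mul] at h
  add_mem' := by
    rintro y y' ⟨h1, h2⟩ ⟨h3, h4⟩
    refine ⟨U.add_mem h1 h3, fun z hz => ?_⟩
    rw [Gf_add_right, h2 z hz, h4 z hz, add_zero]
  smul_mem' := by
    rintro t y ⟨h1, h2⟩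
    refine ⟨U.smul_mem t h1, fun z hz => ?_⟩
    rw [Gf_smul_right, h2 z hz, mul_zero]

end ugau

/-- **GJ-UGAU.** -/
theorem t_UGAU : S_UGAU := by
  intro F _ _ _ Q hQ n hn hn3 U hU hiso d x hd hx
  refine ⟨fun hz z hzU => ?_, ?_⟩
  · rw [ts_qf hQ hd x (hiso z hzU z hzU)]
    refine ts_fix hQ ?_
    have h1 := hz z hzU
    rw [gx_ef hQ] at h1
    exact (eq_of_add_F h1).symm
  · rintro ⟨z₁, hz₁, hne⟩ z₀
    obtain ⟨A, hA⟩ : ∃ A : Finset (V n F), A = (univ : Finset (V n F)).filter (· ∈ U) := ⟨_, rfl⟩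
    have hAm : ∀ z, z ∈ A ↔ z ∈ U := fun z => by
      rw [hA, Finset.mem_filter]
      exact and_iff_right (Finset.mem_univ _)
    have hAc : A.card = Fintype.card F ^ (n - 1) := by rw [hA, card_filter_sub, hU]
    rw [← hA]
    obtain ⟨f, hf'⟩ : ∃ f : V n F → ℝ, ∀ z, f z = ts (ef Q x z) * ts (hf Q z₀ z) :=
      ⟨_, fun _ => rfl⟩
    have hsum : ∑ z ∈ A, ts (qf Q d x z + hf Q z₀ z) = ∑ z ∈ A, f z := by
      refine Finset.sum_congr rfl fun z hz => ?_
      have hzU := (hAm z).1 hz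
      rw [ts_add, ts_qf hQ hd x (hiso z hzU z hzU), hf']
    rw [hsum]
    have hff : ∀ z h, f z * f (z + h) = f h * ts (Gf Q x z h) := by
      intro z h
      rw [hf', hf', hf', ts_ef_add hQ, hf_add_right, ts_add]
      have e1 := ts_sq (ef Q x z)
      have e2 := ts_sq (hf Q z₀ z)
      linear_combination (ts (ef Q x h) * ts (Gf Q x z h) * ts (hf Q z₀ h) *
        (ts (hf Q z₀ z) * ts (hf Q z₀ z))) * e1 +
        (ts (ef Q x h) * ts (Gf Q x z h) * ts (hf Q z₀ h)) * e2
    have hfabs : ∀ h, |f h| ≤ 1 := by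
      intro h
      rw [hf']
      rcases ts_cases (ef Q x h) with h1 | h1 <;> rcases ts_cases (hf Q z₀ h) with h2 | h2 <;>
        rw [h1, h2] <;> norm_num
    -- the square of the sum
    have hsq : (∑ z ∈ A, f z) * (∑ z ∈ A, f z) = ∑ h ∈ A, f h * ∑ z ∈ A, ts (Gf Q x z h) := by
      have h1 : ∀ z ∈ A, ∑ y ∈ A, f y = ∑ h ∈ A, f (z + h) := by
        intro z hz
        have hzU := (hAm z).1 hz
        refine Finset.sum_nbij' (fun y => y - z) (fun h => z + h) ?_ ?_ ?_ ?_ ?_
        · intro y hy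
          exact (hAm _).2 (U.sub_mem ((hAm y).1 hy) hzU)
        · intro h hh
          exact (hAm _).2 (U.add_mem hzU ((hAm h).1 hh))
        · intro y _
          exact add_sub_cancel z y
        · intro h _
          exact add_sub_cancel_left z h
        · intro y _
          rw [add_sub_cancel]
      calc (∑ z ∈ A, f z) * (∑ z ∈ A, f z) = ∑ z ∈ A, f z * ∑ y ∈ A, f y := by
            rw [Finset.sum_mul]
        _ = ∑ z ∈ A, ∑ h ∈ A, f h * ts (Gf Q x z h) := by
            refine Finset.sum_congr rfl fun z hz => ?_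
            rw [h1 z hz, Finset.mul_sum]
            exact Finset.sum_congr rfl fun h _ => hff z h
        _ = ∑ h ∈ A, f h * ∑ z ∈ A, ts (Gf Q x z h) := by
            rw [Finset.sum_comm]
            refine Finset.sum_congr rfl fun h _ => ?_
            rw [Finset.mul_sum]
    have hin : ∀ h ∈ A, ∑ z ∈ A, ts (Gf Q x z h) =
        if h ∈ Rf Q x U then (Fintype.card F : ℝ) ^ (n - 1) else 0 := by
      intro h hh
      by_cases hR : h ∈ Rf Q x U
      · rw [if_pos hR]
        rw [Finset.sum_congr rfl fun z hz => by rw [hR.2 z ((hAm z).1 hz), ts_zero],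
          Finset.sum_const, hAc, nsmul_eq_mul, mul_one]
        push_cast
        rfl
      · rw [if_neg hR]
        have hex : ∃ z ∈ U, Gf Q x z h ≠ 0 := by
          by_contra hcon
          push Not at hcon
          exact hR ⟨(hAm h).1 hh, hcon⟩
        obtain ⟨z, hz, hzh⟩ := hex
        obtain ⟨t, ht⟩ := exists_ts_conj hQ hzh
        rw [hA]
        refine sum_sub U (fun z => ts (Gf Q x z h)) (fun y _ y' _ => ?_)
          (x0 := t • z) (U.smul_mem t hz) ?_
        · change ts (Gf Q x (y + y') h) = _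
          rw [Gf_add_left hQ, ts_add]
        · change ts (Gf Q x (t • z) h) ≠ 1
          rw [Gf_smul_left, ht]
          norm_num
    have hRU : Rf Q x U < U := by
      refine lt_of_le_of_ne (fun h hh => hh.1) fun heq => ?_
      have h1 : z₁ ∈ Rf Q x U := by rw [heq]; exact hz₁
      apply hne
      rw [← Gf_self]
      exact h1.2 z₁ hz₁
    have hn1 : n - 1 = (n - 2) + 1 := by omega
    have hRc := card_lt_sub hRU (m := n - 2) (by rw [hU, hn1])
    have hF0 : (0 : ℝ) ≤ (Fintype.card F : ℝ) := Nat.cast_nonneg _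
    have hbound : (∑ z ∈ A, f z) * (∑ z ∈ A, f z) ≤
        (Fintype.card F : ℝ) ^ (n - 2) * (Fintype.card F : ℝ) ^ (n - 1) := by
      rw [hsq, Finset.sum_congr rfl fun h hh => by rw [hin h hh]]
      calc ∑ h ∈ A, f h * (if h ∈ Rf Q x U then (Fintype.card F : ℝ) ^ (n - 1) else 0) ≤
          ∑ h ∈ A, (if h ∈ Rf Q x U then (Fintype.card F : ℝ) ^ (n - 1) else 0) := by
            refine Finset.sum_le_sum fun h _ => ?_
            split_ifs
            · have h1 := (abs_le.1 (hfabs h)).2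
              have h2 : (0 : ℝ) ≤ (Fintype.card F : ℝ) ^ (n - 1) := pow_nonneg hF0 _
              nlinarith
            · rw [mul_zero]
        _ ≤ ∑ h ∈ (univ : Finset (V n F)).filter (· ∈ Rf Q x U), (Fintype.card F : ℝ) ^ (n - 1) := by
            rw [Finset.sum_filter]
            refine Finset.sum_le_univ_sum_of_nonneg fun h => ?_
            split_ifs
            · exact pow_nonneg hF0 _
            · exact le_refl _
        _ = (Nat.card (Rf Q x U) : ℝ) * (Fintype.card F : ℝ) ^ (n - 1) := by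
            rw [Finset.sum_const, card_filter_sub, nsmul_eq_mul]
        _ ≤ (Fintype.card F : ℝ) ^ (n - 2) * (Fintype.card F : ℝ) ^ (n - 1) := by
            refine mul_le_mul_of_nonneg_right ?_ (pow_nonneg hF0 _)
            exact_mod_cast hRc
    have hQr : (Fintype.card F : ℝ) = (Q : ℝ) ^ 2 := by
      rw [hQ]
      push_cast
      rfl
    have hQ0 : (0 : ℝ) < (Q : ℝ) := by
      have := Q_two hQ
      exact_mod_cast (by omega : 0 < Q)
    have e1 : (Fintype.card F : ℝ) ^ (n - 1) / Q = (Q : ℝ) ^ (2 * (n - 2) + 1) := by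
      rw [hQr, ← pow_mul, hn1, div_eq_iff hQ0.ne', ← pow_succ]
      congr 1
    rw [e1]
    refine abs_le_of_sq_le_sq ?_ (pow_nonneg hQ0.le _)
    calc (∑ z ∈ A, f z) ^ 2 = (∑ z ∈ A, f z) * (∑ z ∈ A, f z) := pow_two _
      _ ≤ (Fintype.card F : ℝ) ^ (n - 2) * (Fintype.card F : ℝ) ^ (n - 1) := hbound
      _ = ((Q : ℝ) ^ (2 * (n - 2) + 1)) ^ 2 := by
          rw [hQr, ← pow_mul, ← pow_mul, ← pow_add, ← pow_mul, hn1]
          congr 1
          omega

end Pool.Agent.Q190.GJ
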