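import Pool.Agent.Q190.GJ.Base

/-!
# Project GJ (helper269): job UISO (helper190)
-/

set_option autoImplicit false
set_option linter.all false

open scoped Classical
open Finset

namespace Pool.Agent.Q190.GJ

open Pool.Agent.Q269.GR (F2 cf ts HU)
open Pool.Agent.Q269.GJ
open Pool.Agent.Q65.GR (sum_char charF add_self_F eq_of_add_F ts_zero ts_add ts_sq ts_cases ts_sum
  exists_ts Q_pow Q_two conj_add conj_zero conj_conj conj_inj conj_ne cf_conj ts_conj exists_ts_conj
  card_fix exists_nonfix ts_fix sum_ts card_pow pow_card_inj pow_card_le sum_s)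

section uiso

variable {F : Type} [Field F] [Algebra F2 F] [Fintype F] {Q : ℕ} {n : ℕ}

/-- the indicator of the pair `a, b` -/
noncomputable def ip (a b : Fin n) : Fin n → Fin n → F2 :=
  fun l l' => if (l = a ∧ l' = b) ∨ (l = b ∧ l' = a) then 1 else 0

theorem ip_sy (a b : Fin n) : Sy (ip a b) := by
  intro l l'
  unfold ip
  have h : ((l = a ∧ l' = b) ∨ (l = b ∧ l' = a)) ↔ ((l' = a ∧ l = b) ∨ (l' = b ∧ l = a)) := by
    tauto
  simp only [h]

theorem lap_ip {a b : Fin n} (hab : a ≠ b) (w : Fin n → F) (l : Fin n) :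
    lap (ip a b) w l = (if l = a then w a + w b else 0) + (if l = b then w a + w b else 0) := by
  unfold lap ip cf
  by_cases h1 : l = a
  · have h2 : ¬ l = b := fun h => hab (h1.symm.trans h)
    rw [if_pos h1, if_neg h2, add_zero, Finset.sum_eq_single b]
    · rw [if_pos (Or.inl ⟨h1, rfl⟩), map_one, one_mul, h1]
    · intro l' _ hl'
      rw [if_neg, map_zero, zero_mul]
      rintro (⟨-, h⟩ | ⟨h, -⟩)
      · exact hl' h
      · exact h2 h
    · intro h
      exact absurd (mem_univ _) h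
  · rw [if_neg h1, zero_add]
    by_cases h2 : l = b
    · rw [if_pos h2, Finset.sum_eq_single a]
      · rw [if_pos (Or.inr ⟨h2, rfl⟩), map_one, one_mul, h2, add_comm]
      · intro l' _ hl'
        rw [if_neg, map_zero, zero_mul]
        rintro (⟨h, -⟩ | ⟨-, h⟩)
        · exact h1 h
        · exact hl' h
      · intro h
        exact absurd (mem_univ _) h
    · rw [if_neg h2]
      refine sum_eq_zero fun l' _ => ?_
      rw [if_neg, map_zero, zero_mul]
      rintro (⟨h, -⟩ | ⟨h, -⟩)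
      · exact h1 h
      · exact h2 h

/-- the nondegenerate form on the plane -/
noncomputable def h2 (Q : ℕ) (s s' : F × F) : F := s.2 ^ Q * s'.1 + s'.2 * s.1 ^ Q

/-- the differences of the entries `a` and `b` -/
noncomputable def Dm (a b : Fin n) : V n F →ₗ[F] F × F where
  toFun z := (z.1.1 a + z.1.1 b, z.2.1 a + z.2.1 b)
  map_add' z z' := by
    simp only [Prod.fst_add, Prod.snd_add, Submodule.coe_add, Pi.add_apply, Prod.mk_add_mk]
    refine Prod.ext ?_ ?_
    · show _ + _ + (_ + _) = _ + _ + (_ + _)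
      ring
    · show _ + _ + (_ + _) = _ + _ + (_ + _)
      ring
  map_smul' t z := by
    simp only [Prod.smul_fst, Prod.smul_snd, Submodule.coe_smul, Pi.smul_apply, smul_eq_mul,
      RingHom.id_apply, Prod.smul_mk]
    rw [mul_add, mul_add]

theorem Dm_apply (a b : Fin n) (z : V n F) :
    Dm a b z = (z.1.1 a + z.1.1 b, z.2.1 a + z.2.1 b) := rfl

theorem gx_ip (hQ : Fintype.card F = Q ^ 2) {a b : Fin n} (hab : a ≠ b) (z : V n F) :
    gx Q (ip a b) z = h2 Q (Dm a b z) (Dm a b z) := by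
  have h1 : ∀ l, z.2.1 l ^ Q * lap (ip a b) z.1.1 l + z.2.1 l * lap (ip a b) z.1.1 l ^ Q =
      ((if l = a then z.2.1 l ^ Q * (z.1.1 a + z.1.1 b) else 0) +
        (if l = b then z.2.1 l ^ Q * (z.1.1 a + z.1.1 b) else 0)) +
      ((if l = a then z.2.1 l * (z.1.1 a + z.1.1 b) ^ Q else 0) +
        (if l = b then z.2.1 l * (z.1.1 a + z.1.1 b) ^ Q else 0)) := by
    intro l
    rw [lap_ip hab, conj_add hQ, mul_add, mul_add]
    have e : ∀ (p : Prop) [Decidable p] (t : F),
        (if p then t else 0) ^ Q = if p then t ^ Q else 0 := by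
      intro p _ t
      by_cases hp : p
      · rw [if_pos hp, if_pos hp]
      · rw [if_neg hp, if_neg hp, conj_zero hQ]
    rw [e, e, mul_ite, mul_ite, mul_ite, mul_ite, mul_zero, mul_zero]
  unfold gx
  rw [sum_congr rfl fun l _ => h1 l]
  simp only [sum_add_distrib]
  simp only [Finset.sum_ite_eq', if_pos (mem_univ _)]
  rw [h2, Dm_apply]
  simp only [conj_add hQ]
  ring

theorem h2_add_right (s x y : F × F) : h2 Q s (x + y) = h2 Q s x + h2 Q s y := by
  simp only [h2, Prod.fst_add, Prod.snd_add]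
  ring

/-- polarisation -/
theorem pol (hQ : Fintype.card F = Q ^ 2) {U : Submodule F (V n F)} (D : V n F →ₗ[F] F × F)
    (h : ∀ z ∈ U, h2 Q (D z) (D z) = 0) {z z' : V n F} (hz : z ∈ U) (hz' : z' ∈ U) :
    h2 Q (D z) (D z') = 0 := by
  by_contra hA
  obtain ⟨y, hy⟩ := exists_nonfix hQ
  obtain ⟨l, hl⟩ : ∃ l, l = y / h2 Q (D z) (D z') := ⟨_, rfl⟩
  have h1 := h _ (U.add_mem hz (U.smul_mem l hz'))
  have h2' := h _ hz
  have h3 := h _ hz'
  have h4 : y = l * h2 Q (D z) (D z') := by rw [hl, div_mul_cancel₀ _ hA]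
  apply hy
  symm
  apply eq_of_add_F
  rw [h4]
  rw [map_add, map_smul] at h1
  simp only [h2, Prod.fst_add, Prod.snd_add, Prod.smul_fst, Prod.smul_snd, smul_eq_mul,
    conj_add hQ, mul_pow, conj_conj hQ] at h1 h2' h3 ⊢
  linear_combination h1 - h2' - l ^ Q * l * h3

theorem card_iso2 (hQ : Fintype.card F = Q ^ 2) (I : Submodule F (F × F))
    (h : ∀ s ∈ I, ∀ s' ∈ I, h2 Q s s' = 0) : Nat.card I ≤ Fintype.card F := by
  have h1 : I < ⊤ := by
    refine lt_top_iff_ne_top.2 fun hI => ?_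
    have h3 := h (1, 0) (by rw [hI]; exact Submodule.mem_top) (0, 1)
      (by rw [hI]; exact Submodule.mem_top)
    simp only [h2, conj_zero hQ, zero_mul, one_pow, mul_one, zero_add] at h3
    exact one_ne_zero h3
  have h3 := Submodule.finrank_lt h1.ne
  rw [Module.finrank_prod, Module.finrank_self] at h3
  rw [card_pow (F := F) (M := I)]
  calc Fintype.card F ^ Module.finrank F I ≤ Fintype.card F ^ 1 :=
        Nat.pow_le_pow_right Fintype.card_pos (by omega)
    _ = Fintype.card F := pow_one _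

theorem eq_of_le_card {U W : Submodule F (V n F)} (h : U ≤ W) (hc : Nat.card W ≤ Nat.card U) :
    U = W := by
  apply SetLike.coe_injective
  refine Set.eq_of_subset_of_ncard_le h ?_ (Set.toFinite _)
  rw [← Nat.card_coe_set_eq, ← Nat.card_coe_set_eq]
  exact hc

/-- the subspace `w = 0` -/
noncomputable def Ui (n : ℕ) (F : Type) [Field F] : Submodule F (V n F) where
  carrier := {z | z.1 = 0}
  zero_mem' := rfl
  add_mem' := by
    intro z z' hz hz'
    show z.1 + z'.1 = 0
    rw [show z.1 = 0 from hz, show z'.1 = 0 from hz', add_zero]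
  smul_mem' := by
    intro t z hz
    show t • z.1 = 0
    rw [show z.1 = 0 from hz, smul_zero]

/-- the subspace `v = t w` -/
noncomputable def Ut (n : ℕ) {F : Type} [Field F] (t : F) : Submodule F (V n F) where
  carrier := {z | z.2 = t • z.1}
  zero_mem' := by
    show (0 : W0 n F) = t • (0 : W0 n F)
    rw [smul_zero]
  add_mem' := by
    intro z z' hz hz'
    show z.2 + z'.2 = t • (z.1 + z'.1)
    rw [show z.2 = t • z.1 from hz, show z'.2 = t • z'.1 from hz', smul_add]
  smul_mem' := by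
    intro c z hz
    show c • z.2 = t • (c • z.1)
    rw [show z.2 = t • z.1 from hz, smul_comm]

theorem card_Ui (hn : Odd n) : Nat.card (Ui n F) ≤ Fintype.card F ^ (n - 1) := by
  rw [← card_W0 hn, ← Nat.card_eq_fintype_card]
  refine Nat.card_le_card_of_injective (fun z : Ui n F => z.1.2) ?_
  rintro ⟨z, hz⟩ ⟨z', hz'⟩ h
  have h1 : z.1 = 0 := hz
  have h3 : z'.1 = 0 := hz'
  exact Subtype.ext (Prod.ext (h1.trans h3.symm) h)

theorem card_Ut (hn : Odd n) (t : F) : Nat.card (Ut n t) ≤ Fintype.card F ^ (n - 1) := by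
  rw [← card_W0 hn, ← Nat.card_eq_fintype_card]
  refine Nat.card_le_card_of_injective (fun z : Ut n t => z.1.1) ?_
  rintro ⟨z, hz⟩ ⟨z', hz'⟩ h
  have h1 : z.2 = t • z.1 := hz
  have h3 : z'.2 = t • z'.1 := hz'
  have h4 : z.1 = z'.1 := h
  refine Subtype.ext (Prod.ext h4 ?_)
  rw [h1, h3, h4]

theorem uiso_one (hQ : Fintype.card F = Q ^ 2) (hn : Odd n) (hn3 : 3 ≤ n) {U : Submodule F (V n F)}
    (hU : Nat.card U = Fintype.card F ^ (n - 1))
    (hg : ∀ x : Fin n → Fin n → F2, Sy x → ∀ z ∈ U, gx Q x z = 0) :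
    U = Ui n F ∨ ∃ t : F, t ^ Q = t ∧ U = Ut n t := by
  have hpol : ∀ a b : Fin n, a ≠ b → ∀ z ∈ U, ∀ z' ∈ U, h2 Q (Dm a b z) (Dm a b z') = 0 := by
    intro a b hab z hz z' hz'
    refine pol hQ (Dm a b) (fun y hy => ?_) hz hz'
    rw [← gx_ip hQ hab]
    exact hg _ (ip_sy a b) y hy
  obtain ⟨l₀, hl₀⟩ : ∃ l : Fin n, l = ⟨0, by omega⟩ := ⟨_, rfl⟩
  obtain ⟨l₁, hl₁⟩ : ∃ l : Fin n, l = ⟨1, by omega⟩ := ⟨_, rfl⟩
  have h10 : l₁ ≠ l₀ := by
    rw [hl₀, hl₁]
    intro h
    exact absurd (congrArg Fin.val h) (by norm_num)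
  -- a nonzero element with few nonzero differences
  obtain ⟨z', hz', hz0, hzd⟩ : ∃ z' ∈ U, z' ≠ 0 ∧ ∀ l, l ≠ l₀ → l ≠ l₁ → Dm l l₀ z' = 0 := by
    by_contra hcon
    push Not at hcon
    have hinj : Function.Injective (fun (z : U) (l : {l : Fin n // l ≠ l₀ ∧ l ≠ l₁}) =>
        (⟨Dm l.1 l₀ z.1, Submodule.mem_map_of_mem z.2⟩ : U.map (Dm l.1 l₀))) := by
      intro z y hzy
      by_contra hne
      obtain ⟨l, h3, h4, h5⟩ := hcon (z.1 - y.1) (U.sub_mem z.2 y.2)
        (fun h => hne (Subtype.ext (sub_eq_zero.1 h)))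
      apply h5
      have h6 := congrArg Subtype.val (congrFun hzy ⟨l, h3, h4⟩)
      rw [map_sub, sub_eq_zero]
      exact h6
    have h3 := Nat.card_le_card_of_injective _ hinj
    rw [Nat.card_pi, hU] at h3
    have h4 : ∏ l : {l : Fin n // l ≠ l₀ ∧ l ≠ l₁}, Nat.card (U.map (Dm (F := F) l.1 l₀)) ≤
        ∏ l : {l : Fin n // l ≠ l₀ ∧ l ≠ l₁}, Fintype.card F := by
      refine Finset.prod_le_prod' fun l _ => card_iso2 hQ _ ?_
      rintro _ ⟨z, hz, rfl⟩ _ ⟨y, hy, rfl⟩
      exact hpol _ _ l.2.1 z hz y hy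
    have h5 : Fintype.card {l : Fin n // l ≠ l₀ ∧ l ≠ l₁} = n - 2 := by
      rw [Fintype.card_subtype]
      have h6 : (univ.filter fun l : Fin n => l ≠ l₀ ∧ l ≠ l₁) = univ \ {l₀, l₁} := by
        ext l
        simp only [mem_filter, mem_univ, true_and, mem_sdiff, mem_insert, mem_singleton, not_or]
      rw [h6, Finset.card_sdiff_of_subset (Finset.subset_univ _), Finset.card_univ, Fintype.card_fin,
        Finset.card_pair h10.symm]
    rw [Finset.prod_const, Finset.card_univ, h5] at h4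
    have h6 := pow_card_le (h3.trans h4)
    omega
  obtain ⟨s, hs⟩ : ∃ s, s = Dm l₁ l₀ z' := ⟨_, rfl⟩
  have hs0 : s ≠ 0 := by
    intro h
    apply hz0
    have h3 : ∀ l, Dm l l₀ z' = 0 := by
      intro l
      by_cases h4 : l = l₀
      · rw [h4, Dm_apply, add_self_F, add_self_F]
        rfl
      · by_cases h5 : l = l₁
        · rw [h5, ← hs, h]
        · exact hzd l h4 h5
    have h4 : z'.1.1 = 0 := by
      refine eq_zero_of_const hn (W0_sum z'.1) fun a b => ?_
      have h5 : z'.1.1 a + z'.1.1 l₀ = 0 := congrArg Prod.fst (h3 a)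
      have h6 : z'.1.1 b + z'.1.1 l₀ = 0 := congrArg Prod.fst (h3 b)
      rw [eq_of_add_F h5, eq_of_add_F h6]
    have h5 : z'.2.1 = 0 := by
      refine eq_zero_of_const hn (W0_sum z'.2) fun a b => ?_
      have h5 : z'.2.1 a + z'.2.1 l₀ = 0 := congrArg Prod.snd (h3 a)
      have h6 : z'.2.1 b + z'.2.1 l₀ = 0 := congrArg Prod.snd (h3 b)
      rw [eq_of_add_F h5, eq_of_add_F h6]
    exact Prod.ext (Subtype.ext h4) (Subtype.ext h5)
  have hss : h2 Q s s = 0 := by
    rw [hs]
    exact hpol _ _ h10 _ hz' _ hz'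
  have hall : ∀ z ∈ U, ∀ l, h2 Q s (Dm l l₀ z) = 0 := by
    intro z hz l
    by_cases h4 : l = l₀
    · rw [h4, Dm_apply, add_self_F, add_self_F, h2, mul_zero, zero_mul, add_zero]
    · by_cases h5 : l = l₁
      · rw [h5, hs]
        exact hpol _ _ h10 _ hz' _ hz
      · have h6 := hpol l₁ l (fun h => h5 h.symm) _ hz' _ hz
        have h7 : ∀ y : V n F, Dm l₁ l y = Dm l₁ l₀ y + Dm l l₀ y := by
          intro y
          rw [Dm_apply, Dm_apply, Dm_apply]
          refine Prod.ext ?_ ?_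
          · show _ + _ = (_ + _) + (_ + _)
            linear_combination -add_self_F (y.1.1 l₀)
          · show _ + _ = (_ + _) + (_ + _)
            linear_combination -add_self_F (y.2.1 l₀)
        rw [h7, h7, hzd l h4 h5, add_zero, ← hs, h2_add_right] at h6
        have h8 : h2 Q s (Dm l₁ l₀ z) = 0 := by
          rw [hs]
          exact hpol _ _ h10 _ hz' _ hz
        rwa [h8, zero_add] at h6
  by_cases hα : s.1 = 0
  · left
    have hβ : s.2 ≠ 0 := fun h => hs0 (Prod.ext hα h)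
    refine eq_of_le_card (fun z hz => ?_) (by rw [hU]; exact card_Ui hn)
    refine Subtype.ext (eq_zero_of_const hn (W0_sum z.1) ?_)
    have h3 : ∀ l, z.1.1 l = z.1.1 l₀ := by
      intro l
      have h4 := hall z hz l
      rw [h2, hα, conj_zero hQ, mul_zero, add_zero] at h4
      exact eq_of_add_F ((mul_eq_zero.1 h4).resolve_left (pow_ne_zero _ hβ))
    intro a b
    rw [h3 a, h3 b]
  · right
    obtain ⟨t, ht⟩ : ∃ t, t = s.2 / s.1 := ⟨_, rfl⟩
    have hβ : s.2 = t * s.1 := by rw [ht, div_mul_cancel₀ _ hα]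
    have hαc : s.1 ^ Q ≠ 0 := pow_ne_zero _ hα
    have htQ : t ^ Q = t := by
      have h3 : (t ^ Q + t) * (s.1 ^ Q * s.1) = 0 := by
        have h4 := hss
        rw [h2, hβ, mul_pow] at h4
        linear_combination h4
      exact eq_of_add_F ((mul_eq_zero.1 h3).resolve_right (mul_ne_zero hαc hα))
    refine ⟨t, htQ, eq_of_le_card (fun z hz => ?_) (by rw [hU]; exact card_Ut hn t)⟩
    show z.2 = t • z.1
    have h3 : ∀ l, (t • z.1 + z.2 : W0 n F).1 l = (t • z.1 + z.2 : W0 n F).1 l₀ := by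
      intro l
      apply eq_of_add_F
      have h4 := hall z hz l
      rw [h2, hβ, mul_pow, htQ] at h4
      have h5 : (t * (Dm l l₀ z).1 + (Dm l l₀ z).2) * s.1 ^ Q = 0 := by linear_combination h4
      have h6 := (mul_eq_zero.1 h5).resolve_right hαc
      rw [Dm_apply] at h6
      simp only [Submodule.coe_add, Submodule.coe_smul, Pi.add_apply, Pi.smul_apply, smul_eq_mul]
      simp only at h6
      linear_combination h6
    have h4 := eq_zero_of_const hn (W0_sum (t • z.1 + z.2)) (fun a b => by rw [h3 a, h3 b])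
    have h5 : t • z.1 + z.2 = 0 := Subtype.ext h4
    refine Subtype.ext ?_
    funext l
    have h6 := congrFun (congrArg Subtype.val h5) l
    simp only [Submodule.coe_add, Submodule.coe_smul, Pi.add_apply, Pi.smul_apply, smul_eq_mul,
      ZeroMemClass.coe_zero, Pi.zero_apply] at h6
    exact (eq_of_add_F h6).symm

end uiso

/-- **GJ-UISO.** -/
theorem t_UISO : S_UISO := by
  intro F _ _ _ Q hQ n hn hn3
  have hsub : {U : Submodule F (V n F) | Nat.card U = Fintype.card F ^ (n - 1) ∧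
      (∀ z ∈ U, ∀ z' ∈ U, hf Q z z' = 0) ∧
      ∀ x : Fin n → Fin n → F2, Sy x → ∀ z ∈ U, gx Q x z = 0} ⊆
      ((insert (Ui n F) ((univ.filter fun x : F => x ^ Q = x).image (Ut n)) :
        Finset (Submodule F (V n F))) : Set (Submodule F (V n F))) := by
    rintro U ⟨h1, _, h3⟩
    rw [Finset.mem_coe, Finset.mem_insert, Finset.mem_image]
    rcases uiso_one hQ hn hn3 h1 h3 with h | ⟨t, ht, h⟩
    · exact Or.inl h
    · exact Or.inr ⟨t, by rw [Finset.mem_filter]; exact ⟨Finset.mem_univ _, ht⟩, h.symm⟩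
  refine (Set.ncard_le_ncard hsub (Finset.finite_toSet _)).trans ?_
  rw [Set.ncard_coe_finset]
  refine (Finset.card_insert_le _ _).trans ?_
  exact Nat.add_le_add_right (Finset.card_image_le.trans (card_fix hQ)) 1

end Pool.Agent.Q190.GJ
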