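import Pool.Agent.Q190.GJ.Base

/-!
# Project GJ (helper269): job UORT (helper190)
-/

set_option autoImplicit false
set_option linter.all false

open scoped Classical
open Finset

namespace Pool.Agent.Q190.GJ

open Pool.Agent.Q269.GR (F2 cf ts HU)
open Pool.Agent.Q269.GJ
open Pool.Agent.Q65.GR (sum_char charF add_self_F eq_of_add_F ts_zero ts_add ts_sq ts_cases ts_sum
  exists_ts Q_pow Q_two conj_add conj_zero conj_conj conj_inj conj_ne cf_conj ts_conj exists_ts_conj
  card_fix exists_nonfix ts_fix sum_ts card_pow pow_card_inj pow_card_le sum_s)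

section uort

variable {F : Type} [Field F] [Algebra F2 F] [Fintype F] {Q : ℕ} {n : ℕ}
variable {J : Type} [Fintype J] [LinearOrder J]

theorem sum_v (hQ : Fintype.card F = Q ^ 2) (hn : Odd n) (e : J → Fin n → F)
    (he : ∀ i, ∑ l, e i l = 0) :
    ∑ v : J → W0 n F, ts (∑ i, ∑ l, (v i).1 l ^ Q * e i l) =
      if ∀ i, e i = 0 then (Fintype.card F : ℝ) ^ ((n - 1) * Fintype.card J) else 0 := by
  by_cases h : ∀ i, e i = 0
  · rw [if_pos h]
    have h1 : ∀ v : J → W0 n F, ts (∑ i, ∑ l, (v i).1 l ^ Q * e i l) = (1 : ℝ) := by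
      intro v
      rw [Finset.sum_eq_zero fun i _ => Finset.sum_eq_zero fun l _ => by
        rw [h i, Pi.zero_apply, mul_zero], ts_zero]
    rw [Finset.sum_congr rfl fun v _ => h1 v, Finset.sum_const, Finset.card_univ, nsmul_eq_mul,
      mul_one, Fintype.card_fun, card_W0 hn]
    push_cast
    rw [pow_mul]
  · rw [if_neg h]
    push Not at h
    obtain ⟨i₀, hi₀⟩ := h
    obtain ⟨a, b, hab⟩ := exists_ne hn (he i₀) hi₀
    obtain ⟨t, ht⟩ := exists_ts_conj hQ hab
    have hadd : ∀ x y : J → W0 n F,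
        ts (∑ i, ∑ l, ((x + y) i).1 l ^ Q * e i l) =
        ts (∑ i, ∑ l, (x i).1 l ^ Q * e i l) * ts (∑ i, ∑ l, (y i).1 l ^ Q * e i l) := by
      intro x y
      rw [← ts_add, ← Finset.sum_add_distrib]
      congr 1
      refine Finset.sum_congr rfl fun i _ => ?_
      rw [← Finset.sum_add_distrib]
      refine Finset.sum_congr rfl fun l _ => ?_
      rw [Pi.add_apply, Submodule.coe_add, Pi.add_apply, conj_add hQ, add_mul]
    refine sum_char _ hadd (Pi.single i₀ (pv a b t)) ?_
    have hs : ∑ i, ∑ l, ((Pi.single i₀ (pv a b t) : J → W0 n F) i).1 l ^ Q * e i l =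
        t ^ Q * (e i₀ a + e i₀ b) := by
      rw [Finset.sum_eq_single i₀]
      · rw [Pi.single_eq_same, pv_sum hQ]
      · intro i _ hi
        refine Finset.sum_eq_zero fun l _ => ?_
        rw [Pi.single_eq_of_ne hi, ZeroMemClass.coe_zero, Pi.zero_apply, conj_zero hQ, zero_mul]
      · intro h
        exact absurd (Finset.mem_univ _) h
    rw [hs, ht]
    norm_num

theorem eqn_mem (M : J → J → F) (dd : J → F) {x : J → Fin n → Fin n → F2} (hx : ∀ i, Sy (x i))
    (w : J → W0 n F) (i : J) : ∑ l, eqn M dd x w i l = 0 := by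
  have h1 : ∀ l, eqn M dd x w i l =
      ∑ j, (if j = i then (0 : F) else M i j) * (w j).1 l + dd i * (w i).1 l + lap (x i) (w i).1 l := by
    intro l
    simp only [eqn, Pi.add_apply, Pi.smul_apply, smul_eq_mul, Finset.sum_apply]
    refine congrArg₂ _ (congrArg₂ _ (Finset.sum_congr rfl fun j _ => ?_) rfl) rfl
    split_ifs <;> rfl
  rw [sum_congr rfl fun l _ => h1 l, sum_add_distrib, sum_add_distrib, lap_sum (hx i), add_zero,
    sum_comm, ← mul_sum, W0_sum, mul_zero, add_zero]
  refine sum_eq_zero fun j _ => ?_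
  rw [← mul_sum, W0_sum, mul_zero]

theorem card_Kn (hQ : Fintype.card F = Q ^ 2) (hn : Odd n) (M : J → J → F) (dd : J → F)
    {x : J → Fin n → Fin n → F2} (hx : ∀ i, Sy (x i)) :
    (Fintype.card F : ℝ) ^ ((n - 1) * Fintype.card J) * (Nat.card (Kn M dd x) : ℝ) =
      ∑ w : J → W0 n F, ∑ v : J → W0 n F, ts (∑ i, ∑ l, (v i).1 l ^ Q * eqn M dd x w i l) := by
  have h1 : Nat.card (Kn M dd x) =
      (univ.filter fun w : J → W0 n F => ∀ i, eqn M dd x w i = 0).card := by
    rw [← Fintype.card_subtype, ← Nat.card_eq_fintype_card]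
    rfl
  rw [h1, ← Finset.sum_boole, Finset.mul_sum]
  refine Finset.sum_congr rfl fun w _ => ?_
  rw [sum_v hQ hn (fun i => eqn M dd x w i) (fun i => eqn_mem M dd hx w i)]
  split_ifs
  · rw [mul_one]
  · rw [mul_zero]

/-- the pairing of `v̄_i` and `w_j` -/
noncomputable def Pf (Q : ℕ) (z : J → V n F) (i j : J) : F :=
  ∑ l, (z i).2.1 l ^ Q * (z j).1.1 l

theorem hf_Pf (hQ : Fintype.card F = Q ^ 2) (z : J → V n F) (i j : J) :
    hf Q (z i) (z j) = Pf Q z i j + Pf Q z j i ^ Q := by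
  simp only [hf, Pf]
  rw [conj_sum hQ, ← sum_add_distrib]
  refine sum_congr rfl fun l _ => ?_
  rw [mul_pow, conj_conj hQ]

theorem eqn_sum (M : J → J → F) (dd : J → F) (x : J → Fin n → Fin n → F2) (z : J → V n F) (i : J) :
    ∑ l, (z i).2.1 l ^ Q * eqn M dd x (fun i => (z i).1) i l =
    qf Q (dd i) (x i) (z i) + ∑ j, if j = i then 0 else M i j * Pf Q z i j := by
  have h1 : ∀ l, eqn M dd x (fun i => (z i).1) i l =
      ∑ j, (if j = i then (0 : F) else M i j) * (z j).1.1 l + dd i * (z i).1.1 l +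
        lap (x i) (z i).1.1 l := by
    intro l
    simp only [eqn, Pi.add_apply, Pi.smul_apply, smul_eq_mul, Finset.sum_apply]
    refine congrArg₂ _ (congrArg₂ _ (Finset.sum_congr rfl fun j _ => ?_) rfl) rfl
    split_ifs <;> rfl
  have h2 : ∀ l, (z i).2.1 l ^ Q * eqn M dd x (fun i => (z i).1) i l =
      (z i).2.1 l ^ Q * (dd i * (z i).1.1 l + lap (x i) (z i).1.1 l) +
      ∑ j, (z i).2.1 l ^ Q * ((if j = i then (0 : F) else M i j) * (z j).1.1 l) := by
    intro l
    rw [h1 l, ← mul_sum]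
    ring
  rw [sum_congr rfl fun l _ => h2 l, sum_add_distrib,
    sum_comm (s := (univ : Finset (Fin n))) (t := (univ : Finset J))]
  unfold qf
  congr 1
  refine sum_congr rfl fun j _ => ?_
  split_ifs
  · refine sum_eq_zero fun l _ => ?_
    rw [zero_mul, mul_zero]
  · unfold Pf
    rw [mul_sum]
    exact sum_congr rfl fun l _ => by ring

theorem ts_pairs (hQ : Fintype.card F = Q ^ 2) (M : J → J → F)
    (hM : ∀ i j, i < j → M j i = M i j ^ Q) (z : J → V n F) :
    ts (∑ i, ∑ j, if j = i then 0 else M i j * Pf Q z i j) =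
      ts (∑ i, ∑ j, if i < j then M i j * hf Q (z i) (z j) else 0) := by
  have h1 : ∀ i j, ts (if j = i then 0 else M i j * Pf Q z i j) =
      ts (if i < j then M i j * Pf Q z i j else 0) *
        ts (if j < i then M i j * Pf Q z i j else 0) := by
    intro i j
    rcases lt_trichotomy i j with h | h | h
    · rw [if_neg h.ne', if_pos h, if_neg (not_lt.2 h.le), ts_zero, mul_one]
    · rw [if_pos h.symm, if_neg (not_lt.2 h.symm.le), if_neg (not_lt.2 h.le), ts_zero, mul_one]
    · rw [if_neg h.ne, if_pos h, if_neg (not_lt.2 h.le), ts_zero, one_mul]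
  have h2 : ∀ i j, ts (if i < j then M i j * hf Q (z i) (z j) else 0) =
      ts (if i < j then M i j * Pf Q z i j else 0) *
        ts (if i < j then M j i * Pf Q z j i else 0) := by
    intro i j
    by_cases h : i < j
    · rw [if_pos h, if_pos h, if_pos h, hf_Pf hQ, mul_add, ts_add, ← ts_conj hQ (M j i * Pf Q z j i),
        mul_pow, hM i j h, conj_conj hQ]
    · rw [if_neg h, if_neg h, if_neg h, ts_zero, mul_one]
  rw [ts_sum, ts_sum]
  simp only [ts_sum, h1, h2, Finset.prod_mul_distrib]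
  congr 1
  rw [Finset.prod_comm]

end uort

/-- **GJ-UORT.** -/
theorem t_UORT : S_UORT := by
  intro F _ _ _ Q hQ n hn J _ _ S B dd x hx hB
  obtain ⟨X, hX⟩ : ∃ X : (J → V n F) → ℝ, ∀ z, X z = ts (∑ i, qf Q (dd i) (x i) (z i) +
      ∑ i, ∑ j, if i < j ∧ (i ∈ S ∨ j ∈ S) then B i j * hf Q (z i) (z j) else 0) :=
    ⟨_, fun _ => rfl⟩
  obtain ⟨C, hC⟩ : ∃ C : (J → V n F) → J → J → F, ∀ z i j, C z i j =
      if i < j ∧ i ∉ S ∧ j ∉ S then hf Q (z i) (z j) else 0 := ⟨_, fun _ _ _ => rfl⟩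
  have h1 : ∀ s : J → J → F, (Fintype.card F : ℝ) ^ ((n - 1) * Fintype.card J) *
      (Nat.card (Kn (HU S B Q s) dd x) : ℝ) =
      ∑ z : J → V n F, X z * ts (∑ i, ∑ j, s i j * C z i j) := by
    intro s
    have hM : ∀ i j, i < j → HU S B Q s j i = HU S B Q s i j ^ Q := by
      intro i j hij
      unfold HU
      by_cases h : i ∈ S ∨ j ∈ S
      · rw [if_pos h, if_pos h.symm, hB]
      · rw [if_neg h, if_neg (fun h' => h h'.symm), if_pos hij, if_neg (not_lt.2 hij.le)]
    rw [card_Kn hQ hn _ _ hx, ← Fintype.sum_prod_type']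
    refine (Fintype.sum_equiv (Equiv.arrowProdEquivProdArrow J (fun _ => W0 n F)
      (fun _ => W0 n F)) _ _ fun z => ?_).symm
    have e1 : ∀ i, ∑ l, ((Equiv.arrowProdEquivProdArrow J (fun _ => W0 n F)
          (fun _ => W0 n F) z).2 i).1 l ^ Q *
        eqn (HU S B Q s) dd x
          (Equiv.arrowProdEquivProdArrow J (fun _ => W0 n F) (fun _ => W0 n F) z).1 i l =
        qf Q (dd i) (x i) (z i) +
          ∑ j, if j = i then 0 else HU S B Q s i j * Pf Q z i j :=
      fun i => eqn_sum (HU S B Q s) dd x z i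
    rw [Finset.sum_congr rfl fun i _ => e1 i, Finset.sum_add_distrib, ts_add,
      ts_pairs hQ _ hM z, hX, ts_add, mul_assoc]
    congr 1
    rw [← ts_add, ← Finset.sum_add_distrib]
    congr 1
    refine Finset.sum_congr rfl fun i _ => ?_
    rw [← Finset.sum_add_distrib]
    refine Finset.sum_congr rfl fun j _ => ?_
    rw [hC]
    by_cases hij : i < j
    · by_cases h : i ∈ S ∨ j ∈ S
      · rw [if_pos ⟨hij, h⟩, if_neg, mul_zero, add_zero, if_pos hij]
        · unfold HU
          rw [if_pos h]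
        · rintro ⟨-, h2, h3⟩
          rcases h with h | h
          · exact h2 h
          · exact h3 h
      · have h' := h
        push Not at h'
        rw [if_neg (fun h2 => h h2.2), if_pos ⟨hij, h'⟩, zero_add, if_pos hij]
        unfold HU
        rw [if_neg h, if_pos hij]
    · rw [if_neg (fun h => hij h.1), if_neg (fun h => hij h.1), if_neg hij, mul_zero, add_zero]
  rw [Finset.mul_sum, Finset.sum_congr rfl fun s _ => h1 s, Finset.sum_comm]
  have h2 : ∀ z : J → V n F, ∑ s : J → J → F, X z * ts (∑ i, ∑ j, s i j * C z i j) =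
      if (∀ i j, i < j → i ∉ S → j ∉ S → hf Q (z i) (z j) = 0)
        then (Fintype.card (J → J → F) : ℝ) * X z else 0 := by
    intro z
    rw [← Finset.mul_sum, sum_s hQ (C z)]
    have e : (∀ i j, C z i j = 0) ↔ ∀ i j, i < j → i ∉ S → j ∉ S → hf Q (z i) (z j) = 0 := by
      constructor
      · intro h i j h3 h4 h5
        have := h i j
        rwa [hC, if_pos ⟨h3, h4, h5⟩] at this
      · intro h i j
        rw [hC]
        by_cases h3 : i < j ∧ i ∉ S ∧ j ∉ S
        · rw [if_pos h3]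
          exact h i j h3.1 h3.2.1 h3.2.2
        · rw [if_neg h3]
    by_cases h3 : ∀ i j, C z i j = 0
    · rw [if_pos h3, if_pos (e.1 h3), mul_comm]
    · rw [if_neg h3, if_neg (fun h => h3 (e.2 h)), mul_zero]
  rw [Finset.sum_congr rfl fun z _ => h2 z, ← Finset.sum_filter, Finset.mul_sum]
  refine Finset.sum_congr rfl fun z _ => ?_
  rw [hX]

end Pool.Agent.Q190.GJ
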